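import Pool.Agent.N209.MT.ExistDefs

/-!
# Motives over a field extension and lisse motives over models: definitions
-/

set_option autoImplicit false

open CategoryTheory Limits MonoidalCategory Pretriangulated Triangulated

namespace Pool.Agent.N209.PF

open Pool.Agent.Y116.MT

universe w v u v' u' v₁ u₁

section

variable {C : Type u} [Category.{v} C] [Preadditive C] [HasZeroObject C] [HasShift C ℤ]
  [∀ n : ℤ, (shiftFunctor C n).Additive] [Pretriangulated C] [MonoidalCategory C]
  [SymmetricCategory C] [TensorTriangulated C]
  {C' : Type u'} [Category.{v'} C'] [Preadditive C'] [HasZeroObject C'] [HasShift C' ℤ]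
  [∀ n : ℤ, (shiftFunctor C' n).Additive] [Pretriangulated C'] [MonoidalCategory C']
  [SymmetricCategory C'] [TensorTriangulated C']
  {D : Type u₁} [Category.{v₁} D] [MonoidalCategory D]

/-- The morphism `𝟙 ⟶ π P` which corresponds to `s : 𝟙 ⟶ P` for a pair of adjoint functors
`φ ⊣ π`, where `φ` is monoidal. -/
noncomputable def adjMor {φ : C ⥤ D} [φ.Monoidal] {π : D ⥤ C} (adj : φ ⊣ π) {P : D}
    (s : 𝟙_ D ⟶ P) : 𝟙_ C ⟶ π.obj P :=
  adj.homEquiv (𝟙_ C) P (inv (Functor.LaxMonoidal.ε φ) ≫ s)

/-- Let `C` and `C'` be the categories of motives over a field `k` and over an extension field `K`,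
let `U` be a smooth `k`-variety with a morphism `Spec K ⟶ U` onto its generic point, and let `D` be
the category of lisse (that is, dualizable) motives over `U`, with the functors `ρ : D ⥤ C'`
(restriction to `Spec K`), `φ : C ⥤ D` (inverse image) and `π : D ⥤ C` (direct image), where
`φ ⊣ π`. The compatibility of the realisations with these functors: the realisation of `P` is a
lisse complex on `U`, its stalk is the realisation of `ρ P`, and its cohomology is the realisation
of `π P`. Only the following consequences are used. If the stalk has no cohomology in negative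
degrees, then the cohomology of `U` with values in the complex vanishes in negative degrees; and if
moreover `s` is a global section of `P` whose stalk at the generic point has zero realisation, then
the class of `s` in the cohomology of `U` in degree zero, that is the realisation of the
corresponding morphism `𝟙 ⟶ π P`, is zero. -/
structure LisseCompat {E : Type w} [Field E] (R : Realisation C E) (R' : Realisation C' E)
    (ρ : D ⥤ C') (φ : C ⥤ D) [φ.Monoidal] (π : D ⥤ C) (adj : φ ⊣ π) : Prop where
  /-- the direct image is left exact -/
  ge (P : D) : (∀ j : ℤ, j < 0 → IsZero (R'.H.obj ((ρ.obj P)⟦j⟧))) →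
    ∀ j : ℤ, j < 0 → IsZero (R.H.obj ((π.obj P)⟦j⟧))
  /-- a section of a lisse sheaf which vanishes at the generic point is zero -/
  section_zero (P : D) : (∀ j : ℤ, j < 0 → IsZero (R'.H.obj ((ρ.obj P)⟦j⟧))) →
    ∀ s : 𝟙_ D ⟶ P, R'.H.map (ρ.map s) = 0 → R.H.map (adjMor adj s) = 0

end

end Pool.Agent.N209.PF
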