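import Pool.Agent.N209.PF.Defs
import Pool.Agent.N209.MT.Descent

/-!
# Motivic t-structures over all extensions of a field
-/

set_option autoImplicit false
set_option linter.unusedSectionVars false
set_option linter.unusedSimpArgs false
set_option backward.isDefEq.respectTransparency false
set_option backward.defeqAttrib.useBackward true

open CategoryTheory Limits MonoidalCategory Pretriangulated Triangulated ObjectProperty

namespace Pool.Agent.N209.PF

open Pool.Agent.Y116.MT Pool.Agent.N209.MT Pool.Agent.V1178.MT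

universe w v u v' u' v₁ u₁ v₂ u₂ v₃ u₃

section

variable {C : Type u} [Category.{v} C] [Preadditive C] [HasZeroObject C] [HasShift C ℤ]
  [∀ n : ℤ, (shiftFunctor C n).Additive] [Pretriangulated C] [IsTriangulated C]
  [MonoidalCategory C] [SymmetricCategory C] [TensorTriangulated C] [MonoidalPreadditive C]
  [RightRigidCategory C]
  {Λ : Type*} {E : Λ → Type w} [∀ l, Field (E l)] {S : ∀ l, Realisation C (E l)}

/-- For a motivic t-structure the realisation is injective on the morphisms from the unit to the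
objects whose realisation is in degrees `≥ 0`. -/
theorem zero_of_ge (hid : ∀ e : 𝟙_ C ⟶ 𝟙_ C, e ≫ e = e → e = 0 ∨ e = 𝟙 _)
    {t : TStructure C} (h : IsMotivic t S) (l : Λ) {X : C}
    (hX : ∀ j : ℤ, j < 0 → IsZero ((S l).H.obj (X⟦j⟧))) (s : 𝟙_ C ⟶ X)
    (hs : (S l).H.map s = 0) : s = 0 := by
  have ht : TensorCompat t := ⟨h.tensor_le, h.tensor_ge⟩
  have hu : Hrt t (𝟙_ C) := unit_hrt ht h.nondeg_le h.nondeg_ge
  have he : TExact t (S l) := ⟨h.exact_le l, h.exact_ge l⟩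
  have hXg : t.IsGE X 0 := isGE_of_H ht he hu hid h.nondeg_le h.nondeg_ge hX
  obtain ⟨A, B, hA, hB, f, g, d, hT⟩ := t.exists_triangle_zero_one X
  have hA' : t.IsLE A 0 := ⟨hA⟩
  have hB' : t.IsGE B 1 := ⟨hB⟩
  have hsg : s ≫ g = 0 := t.zero_of_isLE_of_isGE _ 0 1 (by omega) hu.1 hB'
  obtain ⟨s', rfl⟩ := ce2 hT s hsg
  have hAg : t.IsGE A 0 := isGE1 hT hXg (t.isGE_of_ge B (0 - 1) 1 (by omega))
  have hex := (S l).H.map_distinguished_exact _ (inv_rot_of_distTriang _ hT)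
  have hB0 : IsZero ((S l).H.obj (B⟦(-1 : ℤ)⟧)) := he.isGE hB' (-1) (by omega)
  have hm : Mono ((S l).H.map f) := hex.mono_g (hB0.eq_of_src _ _)
  have hs' : (S l).H.map s' = 0 := by
    rw [← cancel_mono ((S l).H.map f), ← Functor.map_comp, hs, zero_comp]
  rw [faithful_heart ht he hu hid hu ⟨hA', hAg⟩ s' hs', zero_comp]

end

section

variable {C : Type u} [Category.{v} C] [Preadditive C] [HasZeroObject C] [HasShift C ℤ]
  [∀ n : ℤ, (shiftFunctor C n).Additive] [Pretriangulated C]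
  [MonoidalCategory C] [SymmetricCategory C] [TensorTriangulated C]
  {C' : Type u'} [Category.{v'} C'] [Preadditive C'] [HasZeroObject C'] [HasShift C' ℤ]
  [∀ n : ℤ, (shiftFunctor C' n).Additive] [Pretriangulated C']
  [MonoidalCategory C'] [SymmetricCategory C'] [TensorTriangulated C']
  {D : Type u₁} [Category.{v₁} D] [Preadditive D] [MonoidalCategory D]
  {ρ : D ⥤ C'} [ρ.Additive] [ρ.Monoidal] {φ : C ⥤ D} [φ.Monoidal] {π : D ⥤ C} [π.Additive]
  (adj : φ ⊣ π)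

lemma adjMor_eq_zero {P : D} {s : 𝟙_ D ⟶ P} (h : adjMor adj s = 0) : s = 0 := by
  have h1 : adjMor adj (0 : 𝟙_ D ⟶ P) = 0 := by
    rw [adjMor, comp_zero, Adjunction.homEquiv_unit, Functor.map_zero, comp_zero]
  have h2 : inv (Functor.LaxMonoidal.ε φ) ≫ s = inv (Functor.LaxMonoidal.ε φ) ≫ (0 : 𝟙_ D ⟶ P) :=
    (adj.homEquiv (𝟙_ C) P).injective (h.trans h1.symm)
  rwa [cancel_epi] at h2

variable {E : Type w} [Field E] {R : Realisation C E} {R' : Realisation C' E}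

/-- The morphism of `C'` attached to a morphism `s` of `D` is zero if its realisation is zero, if
the realisation of `C` is injective on morphisms from the unit to objects in degrees `≥ 0`. -/
lemma zero_of_model (hL : LisseCompat R R' ρ φ π adj)
    (hf : ∀ X : C, (∀ j : ℤ, j < 0 → IsZero (R.H.obj (X⟦j⟧))) → ∀ s : 𝟙_ C ⟶ X,
      R.H.map s = 0 → s = 0)
    {P : D} {G : C'} (hG : ∀ j : ℤ, j < 0 → IsZero (R'.H.obj (G⟦j⟧))) (s : 𝟙_ D ⟶ P)
    (i : ρ.obj P ≅ G) (hs : R'.H.map (Functor.LaxMonoidal.ε ρ ≫ ρ.map s ≫ i.hom) = 0) :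
    Functor.LaxMonoidal.ε ρ ≫ ρ.map s ≫ i.hom = 0 := by
  have hP : ∀ j : ℤ, j < 0 → IsZero (R'.H.obj ((ρ.obj P)⟦j⟧)) := fun j hj =>
    (hG j hj).of_iso (R'.H.mapIso ((shiftFunctor C' j).mapIso i))
  have h1 : R'.H.map (ρ.map s) = 0 := by
    have h2 : ρ.map s = inv (Functor.LaxMonoidal.ε ρ) ≫
        (Functor.LaxMonoidal.ε ρ ≫ ρ.map s ≫ i.hom) ≫ i.inv := by simp
    rw [h2, Functor.map_comp, Functor.map_comp, hs, zero_comp, comp_zero]
  have h2 : s = 0 := adjMor_eq_zero adj (hf _ (hL.ge P hP) _ (hL.section_zero P hP s h1))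
  rw [h2, Functor.map_zero, zero_comp, comp_zero]

end

section

variable {C : Type u} [Category.{v} C] [Preadditive C] [HasZeroObject C] [HasShift C ℤ]
  [∀ n : ℤ, (shiftFunctor C n).Additive] [Pretriangulated C] [IsTriangulated C]
  [MonoidalCategory C] [SymmetricCategory C] [TensorTriangulated C] [MonoidalPreadditive C]
  [RightRigidCategory C]
  (hid : ∀ e : 𝟙_ C ⟶ 𝟙_ C, e ≫ e = e → e = 0 ∨ e = 𝟙 _)
  {C' : Type u'} [Category.{v'} C'] [Preadditive C'] [HasZeroObject C'] [HasShift C' ℤ]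
  [∀ n : ℤ, (shiftFunctor C' n).Additive] [Pretriangulated C'] [IsTriangulated C']
  [MonoidalCategory C'] [SymmetricCategory C'] [TensorTriangulated C'] [MonoidalPreadditive C']
  [RightRigidCategory C'] [Linear ℚ C'] [IsIdempotentComplete C']
  (hid' : ∀ e : 𝟙_ C' ⟶ 𝟙_ C', e ≫ e = e → e = 0 ∨ e = 𝟙 _)
  {T : Type u₂} [Category.{v₂} T] [Preadditive T] [HasZeroObject T] [HasShift T ℤ]
  [∀ n : ℤ, (shiftFunctor T n).Additive] [Pretriangulated T] [IsTriangulated T]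
  [MonoidalCategory T] [SymmetricCategory T] [TensorTriangulated T] [MonoidalPreadditive T]
  [HasCoproducts.{max u' v₂} T]
  (ι : C' ⥤ T) [ι.Full] [ι.Faithful] [ι.Braided] [ι.CommShift ℤ] [ι.IsTriangulated]
  (hc : ∀ X : C', IsCompactObj.{max u' v₂} (ι.obj X))
  {Λ : Type*} [Nonempty Λ] {E : Λ → Type w} [∀ l, Field (E l)]
  {R : ∀ l, Realisation C (E l)} {R' : ∀ l, Realisation C' (E l)}
  {I : Type*} (D : I → Type u₁) [∀ i, Category.{v₁} (D i)] [∀ i, Preadditive (D i)]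
  [∀ i, MonoidalCategory (D i)]
  (ρ : ∀ i, D i ⥤ C') [∀ i, (ρ i).Additive] [∀ i, (ρ i).Monoidal]
  (φ : ∀ i, C ⥤ D i) [∀ i, (φ i).Monoidal]
  (π : ∀ i, D i ⥤ C) [∀ i, (π i).Additive] (adj : ∀ i, φ i ⊣ π i)

include ι hc hid hid' in
/-- Ascent of motivic t-structures. -/
theorem exists_of_models (hL : ∀ i l, LisseCompat (R l) (R' l) (ρ i) (φ i) (π i) (adj i))
    (hcov : ∀ (G : C') (s : 𝟙_ C' ⟶ G), ∃ (i : I) (P : D i) (s₀ : 𝟙_ (D i) ⟶ P)
      (j : (ρ i).obj P ≅ G), s = Functor.LaxMonoidal.ε (ρ i) ≫ (ρ i).map s₀ ≫ j.hom)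
    (hg : (DegreeZero R').IsClassicalTriangulatedGenerator)
    (ht : ∃ t : TStructure C, IsMotivic t R) : ∃ t' : TStructure C', IsMotivic t' R' := by
  obtain ⟨l⟩ := ‹Nonempty Λ›
  obtain ⟨t, h⟩ := ht
  refine exists_motivic'' ι hc hid' hg (l := l) ?_
  intro G hG n hn s hs
  obtain ⟨i, P, s₀, j, rfl⟩ := hcov (G⟦n⟧) s
  refine zero_of_model (adj i) (hL i l) (fun X hX s hs => zero_of_ge hid h l hX s hs) ?_ s₀ j hs
  intro a ha
  exact (hG (n + a) (by omega)).of_iso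
    ((R' l).H.mapIso ((shiftFunctorAdd' C' n a (n + a) rfl).app G).symm)

end

end Pool.Agent.N209.PF
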